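import Mathlib
import Pool.Agent.H10.AvB

set_option autoImplicit false

namespace Pool.Agent.Results.MP_fb4947_gt.Clock
open Pool.Agent.H10.Av

theorem result : (∀ (m : ℕ) (d : Fin m → ℕ), Realised (Wedge d)) ∧
    ∀ (N k : ℕ) (F : Fin (k + 1) → Finset (Fin N)), (∀ t, (F t).Nonempty) → Realised (real F) :=
  ⟨fun _ d => wedge_real d, fun _ _ F h => realB F h⟩

end Pool.Agent.Results.MP_fb4947_gt.Clock
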